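import Pool.Agent.X225.Ef.ZZ

/-!
# A homogeneous elementary free group with full elementary age which is not the Fraisse limit

The language of groups `Lg` (symbols `·`, `⁻¹`, `1`), the structure of a group in it, and the notion
`ElemFree` of an elementary free group (a group with the same complete `Lg`-theory as the free group of
rank two) are defined in `Pool.Agent.X225.Ef.Grp`.
-/

namespace Pool.Agent.Results.MP_87350b_lc.HomogeneousNotLimit

open FirstOrder FirstOrder.Language Filter Pool.Agent.X225.Ef

/-- The subgroup `H` of `G` is an elementary substructure of `G`. -/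
def IsElem {G : Type} [Group G] (H : Subgroup G) : Prop :=
  ∀ (n : ℕ) (φ : Lg.Formula (Fin n)) (x : Fin n → H),
    φ.Realize x ↔ φ.Realize (fun i => (x i : G))

/-- Homogeneity: two finite tuples with the same complete type are conjugate under an automorphism. -/
def Homogeneous (G : Type) [Group G] : Prop :=
  ∀ (n : ℕ) (a b : Fin n → G), (∀ φ : Lg.Formula (Fin n), φ.Realize a ↔ φ.Realize b) →
    ∃ σ : G ≃* G, ∀ i, σ (a i) = b i

/-- The elementary age of `G` is the class of all finitely generated elementary free groups: a group `K`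
is isomorphic to a finitely generated elementary substructure of `G` if and only if `K` is a finitely
generated elementary free group. -/
def FullAge (G : Type) [Group G] : Prop :=
  ∀ (K : Type) [Group K], (Group.FG K ∧ ElemFree K) ↔
    ∃ H : Subgroup G, H.FG ∧ IsElem H ∧ Nonempty (K ≃* H)

/-- `M` is the union of an elementary chain of finitely generated elementary free groups. -/
def UnionOfElementaryChain (M : Type) [Group M] : Prop :=
  ∃ (ι : Type) (C : ι → Subgroup M), (∀ i j, C i ≤ C j ∨ C j ≤ C i) ∧
    (∀ i, (C i).FG ∧ ElemFree (C i)) ∧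
    (∀ i j, ∀ h : C i ≤ C j, ∀ (n : ℕ) (φ : Lg.Formula (Fin n)) (x : Fin n → C i),
      φ.Realize x ↔ φ.Realize (fun k => (Subgroup.inclusion h (x k) : C j))) ∧
    ∀ g : M, ∃ i, g ∈ C i

/-- `M` is a strong `e`-Fraisse limit of the class of all finitely generated elementary free groups: it is
countable and homogeneous, its elementary age is this class, and it is the union of an elementary chain
of members of the class. -/
def IsLimit (M : Type) [Group M] : Prop :=
  Countable M ∧ Homogeneous M ∧ FullAge M ∧ UnionOfElementaryChain M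

/-! ### preliminaries -/

/-- group isomorphisms are isomorphisms of structures -/
def toEquiv {G H : Type} [Group G] [Group H] (e : G ≃* H) : G ≃[Lg] H where
  toEquiv := e.toEquiv
  map_fun' := by
    intro n f x
    cases f with
    | mul => exact map_mul e (x 0) (x 1)
    | inv => exact map_inv e (x 0)
    | one => exact map_one e
  map_rel' := by
    intro n r
    exact Empty.elim r

theorem realize_iso {G H : Type} [Group G] [Group H] (e : G ≃* H) {n : ℕ} (φ : Lg.Formula (Fin n))
    (x : Fin n → G) : φ.Realize (fun i => e (x i)) ↔ φ.Realize x :=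
  (toEquiv e).toElementaryEmbedding.map_formula φ x

theorem ElemFree.iso {G H : Type} [Group G] [Group H] (e : G ≃* H) (h : ElemFree G) : ElemFree H := by
  unfold ElemFree at *
  rw [← h]
  exact ((toEquiv e).toElementaryEmbedding.elementarilyEquivalent).symm

theorem theory_eq_of_isElem {G : Type} [Group G] {H : Subgroup G} (h : IsElem H) :
    Lg.completeTheory H = Lg.completeTheory G := by
  ext σ
  rw [mem_completeTheory, mem_completeTheory]
  have h1 := h 0 (Formula.relabel (L := Lg) (fun x : Empty => (x.elim : Fin 0)) σ)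
    (fun i => i.elim0)
  rw [Formula.realize_relabel, Formula.realize_relabel] at h1
  have e1 : ((fun i : Fin 0 => (i.elim0 : H)) ∘ fun x : Empty => (x.elim : Fin 0)) =
    (default : Empty → H) := Subsingleton.elim _ _
  have e2 : ((fun i : Fin 0 => (((fun i => i.elim0 : Fin 0 → H) i : H) : G)) ∘
    fun x : Empty => (x.elim : Fin 0)) = (default : Empty → G) := Subsingleton.elim _ _
  rw [e1, e2] at h1
  exact h1

theorem exists_model : ∃ (G : Type) (_ : Lg.Structure G), Countable G ∧
    Lg.completeTheory G = Lg.completeTheory F2 ∧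
    (∃ t : Fin 2 → G,
      (eqn (FreeGroup.of 0 * FreeGroup.of 1 * (FreeGroup.of 0)⁻¹ * (FreeGroup.of 1)⁻¹ :
        FreeGroup (Fin 2))).Realize t ∧
      ∀ i j : ℤ, (eqn ((FreeGroup.of 0) ^ i * (FreeGroup.of 1) ^ j :
        FreeGroup (Fin 2))).Realize t → i = 0 ∧ j = 0) ∧
    (∀ (k : ℕ) (a b : Fin k → G), SameTp Lg a b → ∀ c : G,
        ∃ d : G, SameTp Lg (Fin.snoc a c : Fin (k + 1) → G) (Fin.snoc b d : Fin (k + 1) → G)) ∧
    ∀ (n : ℕ) (R : Finset (FreeGroup (Fin n))), ElemFree (FreeGroup (Fin n) ⧸ Rad R) →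
      ∃ F : (FreeGroup (Fin n) ⧸ Rad R) → G, ∀ (m : ℕ) (φ : Lg.Formula (Fin m))
        (x : Fin m → FreeGroup (Fin n) ⧸ Rad R), φ.Realize (F ∘ x) ↔ φ.Realize x := by
  classical
  haveI hcF : ∀ n, Countable (FreeGroup (Fin n)) := fun n => by
    unfold FreeGroup; infer_instance
  haveI hcQ : ∀ (n : ℕ) (R : Finset (FreeGroup (Fin n))), Countable (FreeGroup (Fin n) ⧸ Rad R) :=
    fun n R => by
      exact Quotient.countable
  have hemb : ∀ t : {t : (Σ n : ℕ, Finset (FreeGroup (Fin n))) //
      ElemFree (FreeGroup (Fin t.1) ⧸ Rad t.2)},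
      ∃ F : (FreeGroup (Fin t.1.1) ⧸ Rad t.1.2) → UP F2, ∀ (m : ℕ) (φ : Lg.Formula (Fin m))
        (x : Fin m → FreeGroup (Fin t.1.1) ⧸ Rad t.1.2), φ.Realize (F ∘ x) ↔ φ.Realize x :=
    fun t => up_univ (L := Lg) (M := F2) _ t.2
  choose F hF using hemb
  let X : Set (UP F2) := Set.range zz ∪ ⋃ t, Set.range (F t)
  have hX : X.Countable := by
    refine (Set.countable_range _).union (Set.countable_iUnion fun t => ?_)
    haveI := hcQ t.1.1 t.1.2
    exact Set.countable_range _
  obtain ⟨S, hS1, hS2, hS3⟩ := exists_closed (L := Lg) (N := UP F2)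
    (fun k a b h c => up_hom a b h c) X hX
  refine ⟨S, inferInstance, hS2, ?_, ?_, hS3, ?_⟩
  · have h1 : Lg.completeTheory S = Lg.completeTheory (UP F2) := S.elementarilyEquivalent
    rw [h1, up_elem]
  · let t : Fin 2 → S := fun i => ⟨zz i, hS1 (Or.inl ⟨i, rfl⟩)⟩
    have ht : ∀ φ : Lg.Formula (Fin 2), φ.Realize t ↔ φ.Realize zz := by
      intro φ
      exact (S.subtype.map_formula φ t).symm
    refine ⟨t, (ht _).2 zz_comm, ?_⟩
    intro i j h
    exact zz_free i j ((ht _).1 h)
  · intro n R hR
    let t : {t : (Σ n : ℕ, Finset (FreeGroup (Fin n))) //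
      ElemFree (FreeGroup (Fin t.1) ⧸ Rad t.2)} := ⟨⟨n, R⟩, hR⟩
    refine ⟨fun q => ⟨F t q, hS1 (Or.inr (Set.mem_iUnion.2 ⟨t, q, rfl⟩))⟩, ?_⟩
    intro m φ x
    rw [← hF t m φ x]
    exact (S.subtype.map_formula φ _).symm

theorem homogeneous_of {G : Type} [Group G] [Countable G]
    (H : ∀ (k : ℕ) (a b : Fin k → G), SameTp Lg a b → ∀ c : G,
      ∃ d : G, SameTp Lg (Fin.snoc a c : Fin (k + 1) → G) (Fin.snoc b d : Fin (k + 1) → G)) :
    Homogeneous G := by
  intro n a b hab
  obtain ⟨u, v, h1, h2, h3, h4⟩ := back_forth (G := G) (fun n a b => SameTp Lg a b)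
    (fun n a b h c => H n a b h c) (fun n a b h d => by
      obtain ⟨c, hc⟩ := H n b a h.symm d
      exact ⟨c, hc.symm⟩) n a b hab
  have full : ∀ (m : ℕ) (φ : Lg.Formula (Fin m)) (p : Fin m → ℕ),
      (φ.Realize fun i => u (p i)) ↔ φ.Realize fun i => v (p i) := by
    intro m φ p
    let M : ℕ := (Finset.univ.sup p) + 1
    have hM : ∀ i, p i < n + M := fun i => by
      have : p i ≤ Finset.univ.sup p := Finset.le_sup (Finset.mem_univ i)
      omega
    have h5 := h2 M (φ.relabel fun i => (⟨p i, hM i⟩ : Fin (n + M)))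
    rw [Formula.realize_relabel, Formula.realize_relabel] at h5
    exact h5
  choose idx hidx using h3
  have hu : ∀ i j, u i = u j ↔ v i = v j := by
    intro i j
    have h5 := full 2 (Term.equal (Term.var 0) (Term.var 1)) ![i, j]
    rw [Formula.realize_equal, Formula.realize_equal] at h5
    exact h5
  have hσ : ∀ i, v (idx (u i)) = v i := fun i => (hu _ _).1 (hidx (u i))
  have hmul : ∀ x y, v (idx (x * y)) = v (idx x) * v (idx y) := by
    intro x y
    have h5 := full 3 (Term.equal (Term.var 0) (mulT (Term.var 1) (Term.var 2)))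
      ![idx (x * y), idx x, idx y]
    rw [Formula.realize_equal, Formula.realize_equal, realize_mulT, realize_mulT] at h5
    apply h5.1
    change u (idx (x * y)) = u (idx x) * u (idx y)
    rw [hidx, hidx, hidx]
  let σ₀ : G →* G :=
    { toFun := fun g => v (idx g)
      map_one' := by
        have h5 := hmul 1 1
        rw [mul_one] at h5
        exact (left_eq_mul.1 h5)
      map_mul' := hmul }
  have hbij : Function.Bijective σ₀ := by
    constructor
    · intro x y hxy
      have h5 : u (idx x) = u (idx y) := (hu _ _).2 hxy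
      rwa [hidx, hidx] at h5
    · intro y
      obtain ⟨i, rfl⟩ := h4 y
      exact ⟨u i, hσ i⟩
  refine ⟨MulEquiv.ofBijective σ₀ hbij, ?_⟩
  intro i
  have h5 := h1 i
  rw [← h5.1, ← h5.2]
  exact hσ i

theorem fullAge_of {G : Type} [Group G] (hG : ElemFree G)
    (hF : ∀ (n : ℕ) (R : Finset (FreeGroup (Fin n))), ElemFree (FreeGroup (Fin n) ⧸ Rad R) →
      ∃ F : (FreeGroup (Fin n) ⧸ Rad R) → G, ∀ (m : ℕ) (φ : Lg.Formula (Fin m))
        (x : Fin m → FreeGroup (Fin n) ⧸ Rad R), φ.Realize (F ∘ x) ↔ φ.Realize x) :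
    FullAge G := by
  intro K _
  constructor
  · rintro ⟨hfg, hK⟩
    obtain ⟨n, g, hg⟩ := fg_gens hfg
    obtain ⟨R, hR⟩ := ker_eq_Rad hK g
    let e : K ≃* FreeGroup (Fin n) ⧸ Rad R :=
      (QuotientGroup.quotientKerEquivOfSurjective (FreeGroup.lift g) hg).symm.trans
        (QuotientGroup.quotientMulEquivOfEq hR)
    have hQ : ElemFree (FreeGroup (Fin n) ⧸ Rad R) := ElemFree.iso e hK
    obtain ⟨F, hF⟩ := hF n R hQ
    have hmul : ∀ x y, F (x * y) = F x * F y := by
      intro x y
      have h5 := hF 3 (Term.equal (Term.var 0) (mulT (Term.var 1) (Term.var 2))) ![x * y, x, y]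
      rw [Formula.realize_equal, Formula.realize_equal, realize_mulT, realize_mulT] at h5
      exact h5.2 rfl
    let F₀ : (FreeGroup (Fin n) ⧸ Rad R) →* G :=
      { toFun := F
        map_one' := by
          have h5 := hmul 1 1
          rw [mul_one] at h5
          exact (left_eq_mul.1 h5)
        map_mul' := hmul }
    have hinj : Function.Injective F₀ := by
      intro x y hxy
      have h5 := hF 2 (Term.equal (Term.var 0) (Term.var 1)) ![x, y]
      rw [Formula.realize_equal, Formula.realize_equal] at h5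
      exact h5.1 hxy
    let e' : (FreeGroup (Fin n) ⧸ Rad R) ≃* F₀.range := MonoidHom.ofInjective hinj
    refine ⟨F₀.range, ?_, ?_, ⟨e.trans e'⟩⟩
    · rw [← Group.fg_iff_subgroup_fg]
      haveI : Group.FG K := hfg
      exact Group.fg_of_surjective (f := (e.trans e').toMonoidHom) (e.trans e').surjective
    · intro m φ x
      have h5 : x = fun i => e' (e'.symm (x i)) := by
        funext i
        simp
      have h6 := realize_iso e' φ (fun i => e'.symm (x i))
      rw [← h5] at h6
      rw [h6, ← hF m φ (fun i => e'.symm (x i))]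
      have h7 : (F ∘ fun i => e'.symm (x i)) = fun i => (x i : G) := by
        funext i
        change ((e' (e'.symm (x i)) : F₀.range) : G) = _
        simp
      rw [h7]
  · rintro ⟨H, hfg, hel, ⟨e⟩⟩
    constructor
    · haveI : Group.FG H := (Group.fg_iff_subgroup_fg H).2 hfg
      exact Group.fg_of_surjective (f := e.symm.toMonoidHom) e.symm.surjective
    · apply ElemFree.iso e.symm
      change Lg.completeTheory H = _
      rw [theory_eq_of_isElem hel]
      exact hG

/-- **The answer to Q1 is positive**, without assuming that the class of finitely generated elementary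
free groups is a strong `e`-Fraisse class. There is a countable homogeneous elementary free group `G`
whose elementary age is the class of all finitely generated elementary free groups, and which is not
isomorphic to the strong `e`-Fraisse limit of this class; in fact `G` contains two elements which do
not lie in a common finitely generated elementary free subgroup, so that `G` is not the union of an
elementary chain of finitely generated elementary free groups. -/
theorem result :
    ∃ (G : Type) (_ : Group G), Countable G ∧ ElemFree G ∧ Homogeneous G ∧ FullAge G ∧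
      (∃ a b : G, ∀ H : Subgroup G, H.FG → ElemFree H → ¬ (a ∈ H ∧ b ∈ H)) ∧
      ¬ UnionOfElementaryChain G ∧
      ∀ (M : Type) [Group M], IsLimit M → IsEmpty (G ≃* M) := by
  obtain ⟨G, inst, hG, hel, ⟨t, ht1, ht2⟩, hhom, hage⟩ := exists_model
  obtain ⟨g, rfl⟩ := exists_group hel
  have hmain : ∀ H : Subgroup G, H.FG → ElemFree H → ¬ (t 0 ∈ H ∧ t 1 ∈ H) := by
    rintro H hfg hH ⟨h0, h1⟩
    rw [realize_eqn] at ht1
    simp only [map_mul, map_inv, FreeGroup.lift_apply_of] at ht1
    have hcomm : t 0 * t 1 = t 1 * t 0 := by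
      rw [mul_inv_eq_one, mul_inv_eq_iff_eq_mul] at ht1
      exact ht1
    obtain ⟨i, j, hij, hrel⟩ := no_zz (K := H) hH ((Group.fg_iff_subgroup_fg H).2 hfg)
      (a := ⟨t 0, h0⟩) (b := ⟨t 1, h1⟩) (Subtype.ext hcomm)
    have h2 : t 0 ^ i * t 1 ^ j = 1 := by
      have := congrArg Subtype.val hrel
      simpa using this
    have h3 := ht2 i j (by
      rw [realize_eqn]
      simp only [map_mul, map_zpow, FreeGroup.lift_apply_of]
      exact h2)
    omega
  have key : ∀ (M : Type) [Group M], UnionOfElementaryChain M → IsEmpty (G ≃* M) := by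
    rintro M _ ⟨ι, C, hch, hC, -, hcov⟩
    refine ⟨fun e => ?_⟩
    obtain ⟨i, hi⟩ := hcov (e (t 0))
    obtain ⟨j, hj⟩ := hcov (e (t 1))
    obtain ⟨k, hk1, hk2⟩ : ∃ k, C i ≤ C k ∧ C j ≤ C k := by
      rcases hch i j with h | h
      · exact ⟨j, h, le_rfl⟩
      · exact ⟨i, le_rfl, h⟩
    let D : Subgroup G := (C k).map e.symm.toMonoidHom
    have e' : C k ≃* D := e.symm.subgroupMap (C k)
    refine hmain D ?_ ?_ ⟨?_, ?_⟩
    · rw [← Group.fg_iff_subgroup_fg]
      haveI : Group.FG (C k) := (Group.fg_iff_subgroup_fg _).2 (hC k).1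
      exact Group.fg_of_surjective (f := e'.toMonoidHom) e'.surjective
    · exact ElemFree.iso e' (hC k).2
    · exact ⟨e (t 0), hk1 hi, by simp⟩
    · exact ⟨e (t 1), hk2 hj, by simp⟩
  refine ⟨G, g, hG, hel, homogeneous_of hhom, fullAge_of hel hage, ⟨t 0, t 1, hmain⟩, ?_, ?_⟩
  · intro h
    exact (key G h).false (MulEquiv.refl G)
  · intro M _ hM
    exact key M hM.2.2.2

end Pool.Agent.Results.MP_87350b_lc.HomogeneousNotLimit
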